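import Pool.Agent.BCS.Stmts

/-!
# BCS row CRV: some curve is at most as long as the mean
-/

noncomputable section

open scoped ContDiff Topology
open Set MeasureTheory

namespace Pool.Agent.BCS.H64

open Pool.Agent.BCS

theorem continuous_cp : Continuous cp := by
  unfold cp
  fun_prop

theorem norm_cp (θ : ℝ) : ‖cp θ‖ = 1 := Complex.norm_exp_ofReal_mul_I θ

theorem prob_cube (m : ℕ) :
    IsProbabilityMeasure ((volume : Measure (Fin m → ℝ)).restrict (Icc 0 1)) := by
  refine ⟨?_⟩
  rw [Measure.restrict_apply MeasurableSet.univ, univ_inter, Real.volume_Icc_pi]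
  simp

theorem crv (hM : MinStmt) : CrvStmt := by
  intro m φ χ α K hφ hχ hK
  obtain ⟨hmu, -, -⟩ := hM m χ hχ
  have hχc : Continuous (fun p : ℂ × (Fin m → ℝ) => χ p.1 p.2) := hχ.smooth.continuous
  have hφc : Continuous φ := hφ.continuous
  have hG : Continuous (fun p : ℝ × (Fin m → ℝ) =>
      Real.exp (φ (cp p.1) + α * χ (cp p.1) p.2)) := by
    have h1 : Continuous (fun p : ℝ × (Fin m → ℝ) => χ (cp p.1) p.2) :=
      hχc.comp ((continuous_cp.comp continuous_fst).prodMk continuous_snd)
    have h2 : Continuous (fun p : ℝ × (Fin m → ℝ) => φ (cp p.1)) :=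
      hφc.comp (continuous_cp.comp continuous_fst)
    exact Real.continuous_exp.comp (h2.add (h1.const_mul α))
  have hH : Continuous (fun θ : ℝ => Real.exp (φ (cp θ) + α * mu χ (cp θ))) := by
    have h1 : Continuous (fun θ : ℝ => mu χ (cp θ)) := hmu.comp continuous_cp
    have h2 : Continuous (fun θ : ℝ => φ (cp θ)) := hφc.comp continuous_cp
    exact Real.continuous_exp.comp (h2.add (h1.const_mul α))
  have h2pi : (0 : ℝ) ≤ 2 * Real.pi := by
    have := Real.pi_pos
    linarith
  have hprob := prob_cube m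
  have hint : Integrable (fun p : ℝ × (Fin m → ℝ) =>
      Real.exp (φ (cp p.1) + α * χ (cp p.1) p.2))
      (((volume : Measure ℝ).restrict (Ioc 0 (2 * Real.pi))).prod
        ((volume : Measure (Fin m → ℝ)).restrict (Icc 0 1))) := by
    rw [Measure.prod_restrict]
    have h1 : IntegrableOn (fun p : ℝ × (Fin m → ℝ) =>
        Real.exp (φ (cp p.1) + α * χ (cp p.1) p.2))
        (Icc 0 (2 * Real.pi) ×ˢ Icc (0 : Fin m → ℝ) 1) volume :=
      hG.locallyIntegrable.integrableOn_isCompact (isCompact_Icc.prod isCompact_Icc)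
    exact h1.mono_set (prod_mono Ioc_subset_Icc_self le_rfl)
  have hL := hint.integral_prod_right
  have hL2 := hint.integral_prod_left
  obtain ⟨t, ht⟩ := exists_le_integral hL
  refine ⟨t, ?_⟩
  unfold cI
  rw [intervalIntegral.integral_of_le h2pi, intervalIntegral.integral_of_le h2pi]
  have hHi : Integrable (fun θ : ℝ => K * Real.exp (φ (cp θ) + α * mu χ (cp θ)))
      ((volume : Measure ℝ).restrict (Ioc 0 (2 * Real.pi))) := by
    have h1 : IntegrableOn (fun θ : ℝ => Real.exp (φ (cp θ) + α * mu χ (cp θ)))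
        (Icc 0 (2 * Real.pi)) volume := hH.locallyIntegrable.integrableOn_isCompact isCompact_Icc
    exact (h1.mono_set Ioc_subset_Icc_self).const_mul K
  calc ∫ θ in Ioc 0 (2 * Real.pi), Real.exp (φ (cp θ) + α * χ (cp θ) t)
      ≤ ∫ s in Icc (0 : Fin m → ℝ) 1, ∫ θ in Ioc 0 (2 * Real.pi),
          Real.exp (φ (cp θ) + α * χ (cp θ) s) := ht
    _ = ∫ θ in Ioc 0 (2 * Real.pi), ∫ s in Icc (0 : Fin m → ℝ) 1,
          Real.exp (φ (cp θ) + α * χ (cp θ) s) := (integral_integral_swap hint).symm
    _ ≤ ∫ θ in Ioc 0 (2 * Real.pi), K * Real.exp (φ (cp θ) + α * mu χ (cp θ)) := by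
        refine integral_mono hL2 hHi fun θ => ?_
        change ∫ s in Icc (0 : Fin m → ℝ) 1, Real.exp (φ (cp θ) + α * χ (cp θ) s) ≤
          K * Real.exp (φ (cp θ) + α * mu χ (cp θ))
        have h1 : ∫ s in Icc (0 : Fin m → ℝ) 1, Real.exp (φ (cp θ) + α * χ (cp θ) s) =
            Real.exp (φ (cp θ)) * tI (fun s => Real.exp (α * χ (cp θ) s)) := by
          unfold tI
          rw [← integral_const_mul]
          refine integral_congr_ae (Filter.Eventually.of_forall fun s => ?_)
          exact Real.exp_add _ _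
        rw [h1, Real.exp_add]
        have h2 := mul_le_mul_of_nonneg_left (hK (cp θ) (norm_cp θ)) (Real.exp_pos (φ (cp θ))).le
        calc Real.exp (φ (cp θ)) * tI (fun s => Real.exp (α * χ (cp θ) s))
            ≤ Real.exp (φ (cp θ)) * (K * Real.exp (α * mu χ (cp θ))) := h2
          _ = K * (Real.exp (φ (cp θ)) * Real.exp (α * mu χ (cp θ))) := by ring
    _ = K * ∫ θ in Ioc 0 (2 * Real.pi), Real.exp (φ (cp θ) + α * mu χ (cp θ)) :=
        integral_const_mul _ _

end Pool.Agent.BCS.H64
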