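import Pool.Agent.BCS.Stmts4
import Pool.Agent.Helper88_BCS.CNF

/-!
# Squad BCS (MP_fb4904_gt), row SCT: the scalar curvature depends continuously on the 2-jet
-/

set_option autoImplicit false

noncomputable section

open scoped ContDiff Topology
open Set

namespace Pool.Agent.BCS.H64S

open Pool.Agent.BCS
open Pool.Agent.SecondKind (Coord pd inv christoffel ricci curv)
open Pool.Agent.BCS.H17 (smooth_pd smooth_inv smooth_christoffel)
open Pool.Agent.BCS.H88 (met_det pd_inv_rel pd_add' pd_sub' pd_mul' pd_sum')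

variable {n : ℕ}

/-- 1-jets -/
abbrev T3 (n : ℕ) : Type := Fin n → Fin n → Fin n → ℝ

/-- 2-jets -/
abbrev T4 (n : ℕ) : Type := Fin n → Fin n → Fin n → Fin n → ℝ

def Gm (A : Fin n → Fin n → ℝ) (b : T3 n) (k i j : Fin n) : ℝ :=
  ∑ l, A k l * (b i j l + b j i l - b l i j) / 2

def DA (A : Fin n → Fin n → ℝ) (b : T3 n) (l k p : Fin n) : ℝ :=
  - ∑ s, ∑ r, A k r * b l r s * A s p

def DG (A : Fin n → Fin n → ℝ) (b : T3 n) (c : T4 n) (l k i j : Fin n) : ℝ :=
  ∑ p, (A k p * (c l i j p + c l j i p - c l p i j) +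
    DA A b l k p * (b i j p + b j i p - b p i j)) / 2

def SC (A : Fin n → Fin n → ℝ) (b : T3 n) (c : T4 n) : ℝ :=
  ∑ j, ∑ k, A j k * ∑ i, (DG A b c i i j k - DG A b c j i i k +
    ∑ p, (Gm A b i i p * Gm A b p j k - Gm A b i j p * Gm A b p i k))

theorem mul_inv' {g : Coord n} (hg : Met g) (y : Fin n → ℝ) (i j : Fin n) :
    ∑ p, g y i p * inv g p j y = if i = j then 1 else 0 := by
  have h1 : Matrix.of (g y) * (Matrix.of (g y))⁻¹ = 1 :=
    Matrix.mul_nonsing_inv _ (isUnit_iff_ne_zero.2 (met_det hg y))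
  have h2 := congrFun (congrFun h1 i) j
  rw [Matrix.mul_apply, Matrix.one_apply] at h2
  exact h2

theorem pd_inv {g : Coord n} (hg : Met g) (y : Fin n → ℝ) (l k q : Fin n) :
    pd l (inv g k q) y =
      DA (fun i j => inv g i j y) (fun k i j => pd k (fun x => g x i j) y) l k q := by
  have h1 : ∑ s, (∑ p, (inv g k p y * pd l (fun z => g z p s) y + pd l (inv g k p) y * g y p s)) *
      inv g s q y = 0 :=
    Finset.sum_eq_zero fun s _ => by rw [pd_inv_rel hg y l k s, zero_mul]
  have h2 : ∑ s, (∑ p, pd l (inv g k p) y * g y p s) * inv g s q y = pd l (inv g k q) y := by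
    simp only [Finset.sum_mul]
    rw [Finset.sum_comm]
    have e : ∀ p, ∑ s, pd l (inv g k p) y * g y p s * inv g s q y =
        if p = q then pd l (inv g k p) y else 0 := by
      intro p
      have e1 : ∑ s, pd l (inv g k p) y * g y p s * inv g s q y =
          pd l (inv g k p) y * ∑ s, g y p s * inv g s q y := by
        rw [Finset.mul_sum]
        exact Finset.sum_congr rfl fun s _ => by ring
      rw [e1, mul_inv' hg y p q]
      split_ifs
      · rw [mul_one]
      · rw [mul_zero]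
    rw [Finset.sum_congr rfl fun p _ => e p, Finset.sum_ite_eq' Finset.univ q]
    simp
  simp only [Finset.sum_add_distrib, add_mul] at h1
  rw [h2] at h1
  unfold DA
  simp only [Finset.sum_mul] at h1
  linarith

theorem pd_half (l : Fin n) {f : (Fin n → ℝ) → ℝ} (hf : ContDiff ℝ ∞ f) (y : Fin n → ℝ) :
    pd l (fun z => f z / 2) y = pd l f y / 2 := by
  have h := pd_mul' l hf (contDiff_const (c := (1 / 2 : ℝ))) y
  have h0 : pd l (fun _ : Fin n → ℝ => (1 / 2 : ℝ)) y = 0 := by
    unfold pd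
    simp
  rw [h0] at h
  have e : (fun z => f z / 2) = fun z => f z * (1 / 2) := by
    funext z
    ring
  rw [e, h]
  ring

theorem pd_christoffel {g : Coord n} (hg : Met g) (y : Fin n → ℝ) (l k i j : Fin n) :
    pd l (christoffel g k i j) y =
      DG (fun i j => inv g i j y) (fun k i j => pd k (fun x => g x i j) y)
        (fun l k i j => pd l (pd k (fun x => g x i j)) y) l k i j := by
  have s1 : ∀ a b, ContDiff ℝ ∞ (inv g a b) := fun a b => smooth_inv hg.smooth (met_det hg) a b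
  have s2 : ∀ a b c, ContDiff ℝ ∞ (pd a (fun z => g z b c)) := fun a b c =>
    smooth_pd (hg.smooth b c) a
  have e : christoffel g k i j = fun z => ∑ p, inv g k p z * (pd i (fun z => g z j p) z +
      pd j (fun z => g z i p) z - pd p (fun z => g z i j) z) / 2 := rfl
  have s3 : ∀ p, ContDiff ℝ ∞ (fun z => pd i (fun z => g z j p) z +
      pd j (fun z => g z i p) z - pd p (fun z => g z i j) z) := fun p =>
    ((s2 _ _ _).add (s2 _ _ _)).sub (s2 _ _ _)
  rw [e, pd_sum' l (f := fun p z => inv g k p z * (pd i (fun z => g z j p) z +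
      pd j (fun z => g z i p) z - pd p (fun z => g z i j) z) / 2)
    (fun p => ((s1 k p).mul (s3 p)).div_const 2)]
  unfold DG
  refine Finset.sum_congr rfl fun p _ => ?_
  rw [pd_half l ((s1 k p).mul (s3 p)), pd_mul' l (s1 k p) (s3 p),
    pd_sub' l ((s2 _ _ _).add (s2 _ _ _)) (s2 _ _ _), pd_add' l (s2 _ _ _) (s2 _ _ _),
    pd_inv hg y l k p]

theorem scal_eq {g : Coord n} (hg : Met g) (y : Fin n → ℝ) :
    scal g y = SC (fun i j => inv g i j y) (fun k i j => pd k (fun x => g x i j) y)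
      (fun l k i j => pd l (pd k (fun x => g x i j)) y) := by
  unfold scal SC
  refine Finset.sum_congr rfl fun j _ => Finset.sum_congr rfl fun k _ => ?_
  unfold ricci
  refine congrArg _ (Finset.sum_congr rfl fun i _ => ?_)
  unfold curv
  rw [pd_christoffel hg y i i j k, pd_christoffel hg y j i i k]
  rfl

theorem cont_Gm (k i j : Fin n) : Continuous (fun q : (Fin n → Fin n → ℝ) × T3 n × T4 n =>
    Gm q.1 q.2.1 k i j) := by
  unfold Gm
  fun_prop

theorem cont_DA (l k p : Fin n) : Continuous (fun q : (Fin n → Fin n → ℝ) × T3 n × T4 n =>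
    DA q.1 q.2.1 l k p) := by
  unfold DA
  fun_prop

theorem cont_DG (l k i j : Fin n) : Continuous (fun q : (Fin n → Fin n → ℝ) × T3 n × T4 n =>
    DG q.1 q.2.1 q.2.2 l k i j) := by
  unfold DG
  refine continuous_finsetSum _ fun p _ => Continuous.div_const (Continuous.add ?_ ?_) 2
  · fun_prop
  · refine (cont_DA l k p).mul ?_
    fun_prop

/-- the scalar curvature as a function of the inverse metric and the derivatives -/
def FF (q : (Fin n → Fin n → ℝ) × T3 n × T4 n) : ℝ := SC q.1 q.2.1 q.2.2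

theorem cont_SC : Continuous (FF (n := n)) := by
  unfold FF SC
  refine continuous_finsetSum _ fun j _ => continuous_finsetSum _ fun k _ => Continuous.mul ?_ ?_
  · fun_prop
  · refine continuous_finsetSum _ fun i _ =>
      ((cont_DG i i j k).sub (cont_DG j i i k)).add ?_
    exact continuous_finsetSum _ fun p _ =>
      ((cont_Gm i i p).mul (cont_Gm p j k)).sub ((cont_Gm i j p).mul (cont_Gm p i k))

/-- the inverse matrix -/
def Iv (a : Fin n → Fin n → ℝ) : Fin n → Fin n → ℝ := fun i j => (Matrix.of a)⁻¹ i j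

/-- the inverse matrix in the first component -/
def IJ (q : (Fin n → Fin n → ℝ) × T3 n × T4 n) : (Fin n → Fin n → ℝ) × T3 n × T4 n :=
  (Iv q.1, q.2)

theorem cont_Iv (a : Fin n → Fin n → ℝ) (ha : (Matrix.of a).det ≠ 0) : ContinuousAt Iv a := by
  refine continuousAt_pi.2 fun i => continuousAt_pi.2 fun j => ?_
  have e : (fun a : Fin n → Fin n → ℝ => Iv a i j) =
      fun a => ((Matrix.of a).det)⁻¹ * (Matrix.of a).adjugate i j := by
    funext a
    unfold Iv
    rw [Matrix.inv_def, Matrix.smul_apply, Ring.inverse_eq_inv', smul_eq_mul]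
  rw [e]
  have h0 : Continuous (fun a : Fin n → Fin n → ℝ => (Matrix.of a : Matrix (Fin n) (Fin n) ℝ)) :=
    continuous_id
  have h1 : Continuous (fun a : Fin n → Fin n → ℝ => (Matrix.of a).det) := h0.matrix_det
  have h2 : Continuous (fun a : Fin n → Fin n → ℝ => (Matrix.of a).adjugate i j) :=
    h0.matrix_adjugate.matrix_elem i j
  exact (h1.continuousAt.inv₀ ha).mul h2.continuousAt

theorem d2 {ε : ℝ} (hε : 0 ≤ ε) (a b : Fin n → Fin n → ℝ) (h : ∀ i j, |a i j - b i j| ≤ ε) :
    dist a b ≤ ε :=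
  (dist_pi_le_iff hε).2 fun i => (dist_pi_le_iff hε).2 fun j => by
    rw [Real.dist_eq]
    exact h i j

theorem d3 {ε : ℝ} (hε : 0 ≤ ε) (a b : T3 n) (h : ∀ k i j, |a k i j - b k i j| ≤ ε) :
    dist a b ≤ ε :=
  (dist_pi_le_iff hε).2 fun k => d2 hε (a k) (b k) (h k)

theorem d4 {ε : ℝ} (hε : 0 ≤ ε) (a b : T4 n) (h : ∀ l k i j, |a l k i j - b l k i j| ≤ ε) :
    dist a b ≤ ε :=
  (dist_pi_le_iff hε).2 fun l => d3 hε (a l) (b l) (h l)

/-- **SCT** -/
theorem sct : SctStmt := by
  intro n g₀ y η hg₀ hη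
  obtain ⟨J, hJ⟩ : ∃ J : Coord n → (Fin n → Fin n → ℝ) × T3 n × T4 n, ∀ g, J g =
    (g y, (fun k i j => pd k (fun x => g x i j) y),
      fun l k i j => pd l (pd k (fun x => g x i j)) y) := ⟨_, fun _ => rfl⟩
  have hc : ContinuousAt (FF ∘ IJ) (J g₀) := by
    refine ContinuousAt.comp (cont_SC (n := n)).continuousAt ?_
    have h2 : ContinuousAt Iv (J g₀).1 := by
      rw [hJ]
      exact cont_Iv (g₀ y) (met_det hg₀ y)
    have h3 : ContinuousAt (fun q : (Fin n → Fin n → ℝ) × T3 n × T4 n => q.1) (J g₀) :=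
      continuous_fst.continuousAt
    have h4 : ContinuousAt (fun q : (Fin n → Fin n → ℝ) × T3 n × T4 n => q.2) (J g₀) :=
      continuous_snd.continuousAt
    exact (ContinuousAt.comp (g := Iv) h2 h3).prodMk h4
  obtain ⟨δ, hδ, hd⟩ := Metric.continuousAt_iff.1 hc η hη
  refine ⟨δ / 2, by positivity, fun g hg hcl => ?_⟩
  have hs : ∀ g : Coord n, Met g → scal g y = (FF ∘ IJ) (J g) := by
    intro g hg
    rw [scal_eq hg y, hJ, Function.comp_apply, IJ, FF]
    rfl
  rw [hs g hg, hs g₀ hg₀]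
  have hε : (0 : ℝ) ≤ δ / 2 := by positivity
  have hdist : dist (J g) (J g₀) < δ := by
    refine lt_of_le_of_lt ?_ (by linarith : δ / 2 < δ)
    rw [hJ, hJ, Prod.dist_eq, Prod.dist_eq]
    refine max_le ?_ (max_le ?_ ?_)
    · exact d2 hε _ _ fun i j => (hcl i j).1
    · exact d3 hε _ _ fun k i j => (hcl i j).2.1 k
    · exact d4 hε _ _ fun l k i j => (hcl i j).2.2 k l
  have h := hd hdist
  rw [Real.dist_eq] at h
  exact h.le

end Pool.Agent.BCS.H64S
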